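import Pool.Agent.helper55.GL.Spec

set_option autoImplicit false

namespace Pool.Agent.GL

open SimpleGraph

lemma JBD_adj {V W : Type} (H : SimpleGraph V) (K : SimpleGraph W) (v : V) (w : W) :
    (∀ a b, (Join H K v w).Adj (Sum.inl a) (Sum.inl b) → H.Adj a b) ∧
    (∀ a b, (Join H K v w).Adj (Sum.inr a) (Sum.inr b) → K.Adj a b) := by
  constructor
  · intro a b h
    simpa [Join, SimpleGraph.sup_adj, SimpleGraph.edge_adj] using h
  · intro a b h
    simpa [Join, SimpleGraph.sup_adj, SimpleGraph.edge_adj] using h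

theorem JBD (hSUM : SUM_stmt) (hEMB : EMB_stmt) (hBAS : BAS_stmt) (hJPR : JPR_stmt) :
    JBD_stmt := by
  classical
  intro V W _ _ H K c d v w hH hK hHi hKi hcd
  obtain ⟨hPr, -, -, -, hl, hr, hvw, hlr, -⟩ := hJPR V W H K v w
  obtain ⟨hl', hr'⟩ := JBD_adj H K v w
  have hP : Pr (Join H K v w) (Sum.elim c d) := hPr c d hH hK hcd
  obtain ⟨v', hv'⟩ := hHi v
  obtain ⟨w', hw'⟩ := hKi w
  set J := Join H K v w with hJ
  set e : V ⊕ W → Bool := Sum.elim c d with he
  set N : ℕ := Fintype.card (V ⊕ W) with hN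
  refine ⟨2 ^ (N + 2) + 2 * N + 1, fun n => ?_⟩
  -- first separation
  have h1 := hSUM (V ⊕ W) J e hP Set.univ (Set.range Sum.inl) (Set.range Sum.inr ∪ {Sum.inl v})
    (by
      ext x
      rcases x with x | x <;> simp)
    (by
      rintro _ ⟨a, rfl⟩ ha b hb hb' hab
      rcases hb with ⟨b, rfl⟩ | hb
      · obtain ⟨rfl, -⟩ := hlr a b hab
        exact ha (Or.inr rfl)
      · rw [Set.mem_singleton_iff] at hb
        subst hb
        exact hb' ⟨v, rfl⟩)
    (by
      rintro _ ⟨a, rfl⟩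
      obtain ⟨b, hb⟩ := hHi a
      exact ⟨Sum.inl b, ⟨b, rfl⟩, hl a b hb⟩)
    ⟨Sum.inl v, ⟨v, rfl⟩, Sum.inl v', ⟨v', rfl⟩, hl v v' hv', by
      rintro x ⟨⟨a, rfl⟩, hx⟩
      rcases hx with ⟨b, hb⟩ | hx
      · simp at hb
      · left
        exact hx⟩
    ⟨Sum.inl v, Or.inr rfl, Sum.inr w, Or.inl ⟨w, rfl⟩, hvw, by
      rintro x ⟨⟨a, rfl⟩, hx⟩
      rcases hx with ⟨b, hb⟩ | hx
      · simp at hb
      · left
        exact hx⟩ n
  -- second separation
  have h2 := hSUM (V ⊕ W) J e hP (Set.range Sum.inr ∪ {Sum.inl v}) {Sum.inl v, Sum.inr w}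
    (Set.range Sum.inr)
    (by
      ext x
      rcases x with x | x <;> simp)
    (by
      rintro a ha ha' _ ⟨b, rfl⟩ hb' hab
      rcases ha with ha | ha
      · subst ha
        obtain ⟨-, rfl⟩ := hlr v b hab
        exact hb' (Or.inr rfl)
      · rw [Set.mem_singleton_iff] at ha
        subst ha
        exact ha' ⟨w, rfl⟩)
    (by
      rintro a ha
      rcases ha with ha | ha
      · subst ha
        exact ⟨Sum.inr w, Or.inr rfl, hvw⟩
      · rw [Set.mem_singleton_iff] at ha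
        subst ha
        exact ⟨Sum.inl v, Or.inl rfl, hvw.symm⟩)
    ⟨Sum.inl v, Or.inl rfl, Sum.inr w, Or.inr rfl, hvw, fun x hx => hx.1⟩
    ⟨Sum.inr w, ⟨w, rfl⟩, Sum.inr w', ⟨w', rfl⟩, hr w w' hw', by
      rintro x ⟨hx, ⟨b, rfl⟩⟩
      rcases hx with hx | hx
      · simp at hx
      · left
        exact hx⟩ n
  -- the three parts
  have h3 : exs n J e (Set.range Sum.inl) ≤ exs n H c Set.univ := by
    apply hEMB (V ⊕ W) V J H e c (Set.range Sum.inl) Set.univ (Sum.elim id (fun _ => v))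
    · intro a _
      exact Set.mem_univ _
    · rintro _ ⟨a, rfl⟩ _ ⟨b, rfl⟩ hab
      simpa using hab
    · rintro _ ⟨a, rfl⟩ _ ⟨b, rfl⟩ hab
      exact hl' a b hab
    · rintro _ ⟨a, rfl⟩
      rfl
  have h4 : exs n J e (Set.range Sum.inr) ≤ exs n K d Set.univ := by
    apply hEMB (V ⊕ W) W J K e d (Set.range Sum.inr) Set.univ (Sum.elim (fun _ => w) id)
    · intro a _
      exact Set.mem_univ _
    · rintro _ ⟨a, rfl⟩ _ ⟨b, rfl⟩ hab
      simpa using hab
    · rintro _ ⟨a, rfl⟩ _ ⟨b, rfl⟩ hab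
      exact hr' a b hab
    · rintro _ ⟨a, rfl⟩
      rfl
  have h5 : exs n J e {Sum.inl v, Sum.inr w} ≤ 0 := by
    rw [(hBAS (V ⊕ W) J e).1]
    intro B hB
    by_contra hne
    have hpos : 0 < B.card := by omega
    obtain ⟨⟨i, j⟩, hij⟩ := Finset.card_pos.1 hpos
    apply hB
    refine ⟨fun x => if e x = true then i else j, ?_, ?_⟩
    · have hevw : e (Sum.inl v) ≠ e (Sum.inr w) := hcd
      rintro a (rfl | ha) b (rfl | hb) hab _
      · rfl
      · rw [Set.mem_singleton_iff] at hb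
        subst hb
        exact absurd hab hevw
      · rw [Set.mem_singleton_iff] at ha
        subst ha
        exact absurd hab.symm hevw
      · rw [Set.mem_singleton_iff] at ha hb
        rw [ha, hb]
    · intro a _ b _ _ ha hb
      simp only [ha, hb]
      simpa using hij
  calc exs n J e Set.univ
      ≤ exs n J e (Set.range Sum.inr ∪ {Sum.inl v}) +
          2 ^ (N + 2) * exs n J e (Set.range Sum.inl) + N * n := h1
    _ ≤ (exs n J e (Set.range Sum.inr) + 2 ^ (N + 2) * exs n J e {Sum.inl v, Sum.inr w} + N * n) +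
          2 ^ (N + 2) * exs n J e (Set.range Sum.inl) + N * n := by gcongr
    _ ≤ (exs n K d Set.univ + 2 ^ (N + 2) * 0 + N * n) +
          2 ^ (N + 2) * exs n H c Set.univ + N * n := by gcongr
    _ ≤ (2 ^ (N + 2) + 2 * N + 1) * (exs n H c Set.univ + exs n K d Set.univ + n) := by
        have e1 : (2 ^ (N + 2) + 2 * N + 1) * (exs n H c Set.univ + exs n K d Set.univ + n) =
          (exs n K d Set.univ + 2 ^ (N + 2) * 0 + N * n) +
          2 ^ (N + 2) * exs n H c Set.univ + N * n +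
          ((2 * N + 1) * exs n H c Set.univ + (2 ^ (N + 2) + 2 * N) * exs n K d Set.univ +
            (2 ^ (N + 2) + 1) * n) := by ring
        rw [e1]
        exact Nat.le_add_right _ _

end Pool.Agent.GL
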